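import Pool.Agent.Helper60_SEP.Stmts

/-!
# MP_ff6f12_co, squad SEP, module SND: the wire
-/

set_option autoImplicit false

namespace Pool.Agent.SEP60.H29

open Function

/-- Leafy for a larger bound implies leafy for a smaller one. -/
lemma leafy_mono {n : ℕ} {Y E : Type} {L L' : ℕ} (h : L ≤ L') {inc : E → Fin n → Y} {Z : Set Y}
    (hl : Leafy L' inc Z) : Leafy L inc Z :=
  fun D hD hc => hl D hD (hc.trans h)

/-- With pairwise different points a solution exists. -/
lemma sol_of_injective {n : ℕ} {Y E : Type} {P : Set (Fin n → Bool)} (hP : P.Nonempty)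
    {inc : E → Fin n → Y} (hi : Injective (fun p : E × Fin n => inc p.1 p.2)) :
    ∃ τ, Sol P inc τ := by
  classical
  obtain ⟨p, hp⟩ := hP
  refine ⟨fun y => if h : ∃ q : E × Fin n, inc q.1 q.2 = y then p h.choose.2 else true, ?_⟩
  intro e
  have : (fun i => (fun y => if h : ∃ q : E × Fin n, inc q.1 q.2 = y then p h.choose.2 else true)
      (inc e i)) = p := by
    funext i
    have h : ∃ q : E × Fin n, inc q.1 q.2 = inc e i := ⟨(e, i), rfl⟩
    have h2 : h.choose = (e, i) := hi h.choose_spec
    simp only [dif_pos h, h2]
  rw [this]
  exact hp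

/-- The negation gadget: split the points of an unsolvable hypergraph one by one. -/
lemma exists_neg {n : ℕ} {Y₀ E : Type} [Finite E] {P : Set (Fin n → Bool)} (hP : P.Nonempty)
    (inc₀ : E → Fin n → Y₀) (m : ℕ) : ∀ (Y : Type) [Finite Y] (inc : E → Fin n → Y)
      (g : Y → Y₀), (∀ e i, g (inc e i) = inc₀ e i) →
      Surjective (fun p : E × Fin n => inc p.1 p.2) →
      Nat.card (E × Fin n) ≤ Nat.card Y + m → (¬ ∃ τ, Sol P inc τ) →
      ∃ (Y' : Type) (_ : Finite Y') (inc' : E → Fin n → Y') (g' : Y' → Y₀) (s t : Y'),
        (∀ e i, g' (inc' e i) = inc₀ e i) ∧ (∃ τ, Sol P inc' τ) ∧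
        (∀ τ, Sol P inc' τ → τ s ≠ τ t) ∧ g' s = g' t := by
  classical
  induction m with
  | zero =>
    intro Y _ inc g hg hs hc hu
    exfalso
    have hbij : Bijective (fun p : E × Fin n => inc p.1 p.2) :=
      (Nat.bijective_iff_surjective_and_card _).mpr
        ⟨hs, le_antisymm (by simpa using hc) (Nat.card_le_card_of_surjective _ hs)⟩
    exact hu (sol_of_injective hP hbij.1)
  | succ m ih =>
    intro Y _ inc g hg hs hc hu
    have hni : ¬ Injective (fun p : E × Fin n => inc p.1 p.2) := fun hi =>
      hu (sol_of_injective hP hi)
    obtain ⟨a, b, hab, hne⟩ : ∃ a b : E × Fin n, inc a.1 a.2 = inc b.1 b.2 ∧ a ≠ b := by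
      by_contra hcon
      push Not at hcon
      exact hni fun a b hab => hcon a b hab
    set inc' : E → Fin n → Option Y := fun e i => if (e, i) = a then none else some (inc e i)
      with hinc'
    set g' : Option Y → Y₀ := fun o => o.elim (inc₀ a.1 a.2) g with hg'
    have hgi : ∀ e i, g' (inc' e i) = inc₀ e i := by
      intro e i
      by_cases h : (e, i) = a
      · rw [hinc', hg']
        simp only [if_pos h, Option.elim]
        rw [← h]
      · rw [hinc', hg']
        simp only [if_neg h, Option.elim]
        exact hg e i
    have hga : g' none = g' (some (inc a.1 a.2)) := by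
      rw [hg']
      simp only [Option.elim]
      exact (hg a.1 a.2).symm
    by_cases hsol : ∃ τ, Sol P inc' τ
    · refine ⟨Option Y, inferInstance, inc', g', none, some (inc a.1 a.2), hgi, hsol, ?_, hga⟩
      intro τ hτ heq
      apply hu
      refine ⟨fun y => τ (some y), ?_⟩
      intro e
      have : (fun i => (fun y => τ (some y)) (inc e i)) = fun i => τ (inc' e i) := by
        funext i
        by_cases h : (e, i) = a
        · rw [hinc']
          simp only [if_pos h]
          rw [heq, ← h]
        · rw [hinc']
          simp only [if_neg h]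
      rw [this]
      exact hτ e
    · refine ih (Option Y) inc' g' hgi ?_ ?_ hsol
      · intro o
        cases o with
        | none => exact ⟨a, by simp [hinc']⟩
        | some y =>
          obtain ⟨q, hq⟩ := hs y
          by_cases h : q = a
          · refine ⟨b, ?_⟩
            have hb : ((b.1, b.2) : E × Fin n) ≠ a := fun h' => hne h'.symm
            simp only [hinc', if_neg hb]
            rw [← hab, ← h]
            exact congrArg some hq
          · refine ⟨q, ?_⟩
            have hb : ((q.1, q.2) : E × Fin n) ≠ a := fun h' => h h'
            simp only [hinc', if_neg hb]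
            exact congrArg some hq
      · rw [Finite.card_option]
        omega

/-- SND: the wire. -/
theorem snd (hyp : HypStmt) (lef : LefStmt) : SndStmt := by
  classical
  intro n L P hn hP _ hconst
  obtain ⟨Y₀, E, hY₀, hE, inc₀, hsp, hcol⟩ := hyp n (L + 1) hn
  obtain ⟨hinj, hleaf⟩ := lef n (L + 1) Y₀ E inc₀ hn (by omega) hsp
  -- the start: the points of the hyperedges
  obtain ⟨Y', hY', inc', g', s', t', hg', hsol', hneg, hst⟩ :=
    exists_neg (P := P) hP inc₀ (Nat.card (E × Fin n))
      {y : Y₀ // ∃ q : E × Fin n, inc₀ q.1 q.2 = y}
      (fun e i => ⟨inc₀ e i, (e, i), rfl⟩) (fun y => y.1) (fun _ _ => rfl)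
      (by
        rintro ⟨y, q, hq⟩
        exact ⟨q, Subtype.ext hq⟩)
      (by omega)
      (by
        rintro ⟨τ, hτ⟩
        obtain ⟨e, c, hec⟩ := hcol
          (fun y => if h : ∃ q : E × Fin n, inc₀ q.1 q.2 = y then τ ⟨y, h⟩ else true)
        have h1 := hτ e
        have h2 : (fun i => τ ⟨inc₀ e i, (e, i), rfl⟩) = fun _ => c := by
          funext i
          have h3 := hec i
          have h4 : ∃ q : E × Fin n, inc₀ q.1 q.2 = inc₀ e i := ⟨(e, i), rfl⟩
          simp only [dif_pos h4] at h3
          exact h3
        rw [h2] at h1
        exact hconst c h1)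
  obtain ⟨τ', hτ'⟩ := hsol'
  have hne : s' ≠ t' := fun h => hneg τ' hτ' (by rw [h])
  have hinj' : ∀ e, Injective (inc' e) := by
    intro e i j hij
    apply hinj e
    rw [← hg', ← hg', hij]
  set incw : E × Bool → Fin n → Y' × Bool := fun q i =>
    if inc' q.1 i = t' then (t', false) else (inc' q.1 i, q.2) with hincw
  have hw1 : ∀ q i, inc' q.1 i = t' → incw q i = (t', false) := by
    intro q i h
    rw [hincw]
    simp only [if_pos h]
  have hw2 : ∀ q i, inc' q.1 i ≠ t' → incw q i = (inc' q.1 i, q.2) := by
    intro q i h
    rw [hincw]
    simp only [if_neg h]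
  have hfst : ∀ q i, (incw q i).1 = inc' q.1 i := by
    intro q i
    by_cases h : inc' q.1 i = t'
    · rw [hw1 q i h, h]
    · rw [hw2 q i h]
  have hgw : ∀ q i, g' (incw q i).1 = inc₀ q.1 i := by
    intro q i
    rw [hfst, hg']
  refine ⟨Y' × Bool, E × Bool, inferInstance, inferInstance, incw, (s', false),
    fun β => if β = true then (s', true) else (t', false), ?_, ?_, ?_, ?_, ?_, ?_⟩
  · intro β
    cases β with
    | true =>
      simp only [if_true]
      intro h
      have := congrArg Prod.snd h
      simp at this
    | false =>
      simp only [Bool.false_eq_true, if_false]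
      intro h
      exact hne (congrArg Prod.fst h).symm
  · simp only [if_true, Bool.false_eq_true, if_false]
    intro h
    exact hne (congrArg Prod.fst h)
  · intro q i j hij
    apply hinj' q.1
    rw [← hfst, ← hfst, hij]
  · intro D hD hDc
    -- a copy which is met
    obtain ⟨⟨e₀, b⟩, he₀⟩ := hD
    set Db : Set E := {e | (e, b) ∈ D} with hDb
    have hDb0 : Db.Nonempty := ⟨e₀, he₀⟩
    have hDbc : Db.ncard ≤ L + 1 := by
      have h1 : Db.ncard ≤ D.ncard := by
        apply Set.ncard_le_ncard_of_injOn (fun e => (e, b))
        · intro e he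
          exact he
        · intro x _ y _ hxy
          exact congrArg Prod.fst hxy
      omega
    obtain ⟨e, heD, he⟩ := hleaf (g' s') Db hDb0 hDbc
    have key : ∀ i, (incw (e, b) i ∈ ({(s', false), (if true = true then (s', true) else
        (t', false)), (if false = true then (s', true) else (t', false))} : Set (Y' × Bool)) ∨
        ∃ e' ∈ D, e' ≠ (e, b) ∧ ∃ l, incw e' l = incw (e, b) i) →
        (inc₀ e i ∈ ({g' s'} : Set Y₀) ∨ ∃ e' ∈ Db, e' ≠ e ∧ ∃ l, inc₀ e' l = inc₀ e i) := by
      intro i h
      rcases h with h | ⟨⟨e', b'⟩, hD', hne', l, hl⟩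
      · left
        rw [Set.mem_singleton_iff, ← hgw (e, b) i]
        simp only [if_true, Bool.false_eq_true, if_false, Set.mem_insert_iff,
          Set.mem_singleton_iff] at h
        rcases h with h | h | h
        · rw [h]
        · rw [h]
        · rw [h, hst]
      · by_cases hb : b' = b
        · right
          refine ⟨e', ?_, ?_, l, ?_⟩
          · rw [hDb, Set.mem_ofPred_eq, ← hb]
            exact hD'
          · intro h
            exact hne' (by rw [h, hb])
          · rw [← hgw (e', b') l, ← hgw (e, b) i, hl]
        · left
          rw [Set.mem_singleton_iff]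
          have ht : inc' e i = t' := by
            by_contra hc
            have h1 := hw2 (e, b) i hc
            by_cases hc' : inc' e' l = t'
            · have h2 := hw1 (e', b') l hc'
              rw [h1, h2] at hl
              exact hc (congrArg Prod.fst hl).symm
            · have h2 := hw2 (e', b') l hc'
              rw [h1, h2] at hl
              exact hb (congrArg Prod.snd hl)
          rw [← hg', ht, hst]
    refine ⟨(e, b), heD, ?_⟩
    intro i j hi hj
    exact he i j (key i hi) (key j hj)
  · refine ⟨fun q => τ' q.1, ?_⟩
    intro q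
    have : (fun i => (fun q : Y' × Bool => τ' q.1) (incw q i)) = fun i => τ' (inc' q.1 i) := by
      funext i
      simp only [hfst]
    rw [this]
    exact hτ' q.1
  · intro τ hτ
    have h1 : τ (s', false) ≠ τ (t', false) := by
      apply hneg (fun y => τ (y, false))
      intro e
      have : (fun i => (fun y => τ (y, false)) (inc' e i)) = fun i => τ (incw (e, false) i) := by
        funext i
        by_cases h : inc' e i = t'
        · rw [hw1 (e, false) i h]
          simp only [h]
        · rw [hw2 (e, false) i h]
      rw [this]
      exact hτ (e, false)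
    have h2 : τ (s', true) ≠ τ (t', false) := by
      have h3 := hneg (fun y => if y = t' then τ (t', false) else τ (y, true)) (by
        intro e
        have : (fun i => (fun y => if y = t' then τ (t', false) else τ (y, true)) (inc' e i)) =
            fun i => τ (incw (e, true) i) := by
          funext i
          by_cases h : inc' e i = t'
          · rw [hw1 (e, true) i h]
            simp only [h, if_true]
          · rw [hw2 (e, true) i h]
            simp only [h, if_false]
        rw [this]
        exact hτ (e, true))
      simpa only [hne, if_false, if_true] using h3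
    intro β
    cases β with
    | true =>
      simp only [if_true, iff_true]
      revert h1 h2
      cases τ (s', false) <;> cases τ (t', false) <;> cases τ (s', true) <;> simp
    | false =>
      simp only [Bool.false_eq_true, if_false, iff_false]
      exact fun h => h1 h.symm

end Pool.Agent.SEP60.H29
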